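import Pool.Agent.TH683.W1D.Fin

/-!
# `W[1]` relative to random oracles: simulation with a further auxiliary oracle

As `Cpx` and `Up`, where the algorithm may use another oracle than the problem.
-/

set_option autoImplicit false

namespace Pool.Agent.TH683.W1D.Gen

open Pool.Agent.NPC Pool.Agent.H620R2.Gauge Pool.Agent.H591R3.PHG MeasureTheory ProbabilityTheory
  Pool.Agent.W900.IE Pool.Agent.W900.PS Pool.Agent.TH680 Pool.Agent.H622R2
open Pool.Agent.TH680.OD (rr rr_nonneg rr_le join)
open Pool.Agent.TH678.WP Pool.Agent.TH678.HW Pool.Agent.TH678.ETH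

/-- The oracle `O` knows the procedure for the algorithm `M` with the oracle `Q`. -/
def Knows (O : Oracle) (M : Alg) (Q : Oracle) (q : ℕ → unitInterval) : Prop :=
  ∃ f0 f1 f2 : List Bool → List Bool, Poly f0 ∧ Poly f1 ∧ Poly f2 ∧ ∀ y : List Bool,
      (O (f0 y) = true ↔ (unpair y).2.length < (nx M Q q (unpair y).1).length) ∧
      (O (f1 y) = true ↔ (nx M Q q (unpair y).1).getD (unpair y).2.length false = true) ∧
      (O (f2 y) = true ↔ SS M Q q (unpair (unpair y).1).1 (unpair (unpair y).1).2 = none)

/-- **The auxiliary oracle**, above any given oracle. -/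
theorem exists_Q' (q : ℕ → unitInterval) (Q : Oracle) : ∃ Q' : Oracle,
    (∀ z, Q' (false :: z) = Q z) ∧ ∀ (M : Alg) (A : Oracle), Knows (join Q' A) M Q q := by
  classical
  have hne : Nonempty Alg := by
    obtain ⟨M, _⟩ := IsFP.of_poly (A := fun _ => false) (F := fun x => x) Poly.id
    exact ⟨M⟩
  obtain ⟨g, hg⟩ := exists_surjective_nat Alg
  set Q' : Oracle := fun x => if x.head? = some true then
    decide (Psi g q (unpair x.tail).1.length Q (unpair x.tail).2) else Q x.tail with hQ'
  refine ⟨Q', fun z => by simp [hQ'], fun M A => ?_⟩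
  obtain ⟨e, rfl⟩ := hg M
  have key : ∀ j : ℕ, ∃ f : List Bool → List Bool, Poly f ∧ ∀ y,
      join Q' A (f y) = true ↔ Psi g q (Nat.pair e j) Q y := by
    intro j
    refine ⟨fun y => false :: true :: pairBits (List.replicate (Nat.pair e j) true) y,
      Poly.cons (NPC.Poly.const false) (Poly.cons (NPC.Poly.const true)
        (poly_pairBits (NPC.Poly.const _) Poly.id)), fun y => ?_⟩
    show Q' (true :: pairBits (List.replicate (Nat.pair e j) true) y) = true ↔ _
    rw [hQ']
    simp [unpair_pairBits]
  obtain ⟨f0, hf0, h0⟩ := key 0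
  obtain ⟨f1, hf1, h1⟩ := key 1
  obtain ⟨f2, hf2, h2⟩ := key 2
  refine ⟨f0, f1, f2, hf0, hf1, hf2, fun y => ⟨?_, ?_, ?_⟩⟩
  · rw [h0]
    unfold Psi
    simp only [Nat.unpair_pair, if_true]
  · rw [h1]
    unfold Psi
    simp only [Nat.unpair_pair, if_true, one_ne_zero, if_false]
  · rw [h2]
    unfold Psi
    simp only [Nat.unpair_pair]
    norm_num

section

variable {M : Alg} {Q A O : Oracle} {q : ℕ → unitInterval} {f0 f1 f2 : List Bool → List Bool}

theorem isFP_nx (hf0 : Poly f0) (hf1 : Poly f1)
    (h0 : ∀ y, O (f0 y) = true ↔ (unpair y).2.length < (nx M Q q (unpair y).1).length)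
    (h1 : ∀ y, O (f1 y) = true ↔ (nx M Q q (unpair y).1).getD (unpair y).2.length false = true) :
    IsFP O (nx M Q q) := by
  have hrep : Poly (fun p : List Bool × ℕ => pairBits p.1 (List.replicate (min p.2 p.1.length)
      true)) := by
    refine poly_pairBits (Poly.fst Poly.id) (poly_replicate ?_ true)
    exact UPoly.of_le (Poly.min (Poly.snd Poly.id) (Poly.length (Poly.fst Poly.id)))
      (UPoly.length (Poly.fst Poly.id)) (fun p => min_le_right _ _)
  have hr : Poly (fun v : List Bool => List.range (v.length + 1)) :=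
    (UPoly.add (UPoly.length Poly.id) (UPoly.const 1)).range
  have hQ0 : Poly (fun v : List Bool => (List.range (v.length + 1)).map
      (fun i => f0 (pairBits v (List.replicate (min i v.length) true)))) :=
    NPC.Poly.map (F := fun v i => f0 (pairBits v (List.replicate (min i v.length) true)))
      hr (hf0.comp hrep)
  have hQ1 : Poly (fun v : List Bool => (List.range (v.length + 1)).map
      (fun i => f1 (pairBits v (List.replicate (min i v.length) true)))) :=
    NPC.Poly.map (F := fun v i => f1 (pairBits v (List.replicate (min i v.length) true)))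
      hr (hf1.comp hrep)
  have hH : Poly (fun p : List Bool × List Bool => (List.range (p.1.length + 1)).flatMap
      (fun i => if p.2.getD i false = true then [p.2.getD (p.1.length + 1 + i) false] else [])) := by
    refine Poly.flatMap (F := fun (p : List Bool × List Bool) i => if p.2.getD i false = true then
      [p.2.getD (p.1.length + 1 + i) false] else []) (hr.comp (Poly.fst Poly.id)) ?_
    have ha : Poly (fun w : (List Bool × List Bool) × ℕ => w.1.2) := Poly.snd (Poly.fst Poly.id)
    have hv : Poly (fun w : (List Bool × List Bool) × ℕ => w.1.1) := Poly.fst (Poly.fst Poly.id)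
    have hi : Poly (fun w : (List Bool × List Bool) × ℕ => w.2) := Poly.snd Poly.id
    refine Poly.ite (Poly.decide_bool (Poly.getD ha hi (NPC.Poly.const false))) ?_
      (NPC.Poly.const [])
    exact Poly.cons (Poly.getD ha (Poly.add (Poly.add (Poly.length hv) (NPC.Poly.const 1)) hi)
      (NPC.Poly.const false)) (NPC.Poly.const [])
  have h2 := IsFP.tt (A := O) (Poly.append hQ0 hQ1) hH
  refine (congrArg (IsFP O) (funext fun v => ?_)).mp h2
  have hlen : ((List.range (v.length + 1)).map
      (fun i => f0 (pairBits v (List.replicate (min i v.length) true)))).length =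
      v.length + 1 := by simp
  have e0 : ∀ i, i < v.length + 1 → (List.map O ((List.range (v.length + 1)).map
      (fun i => f0 (pairBits v (List.replicate (min i v.length) true))) ++
      (List.range (v.length + 1)).map
      (fun i => f1 (pairBits v (List.replicate (min i v.length) true))))).getD i false =
      decide (i < (nx M Q q v).length) := by
    intro i hi
    have h3 := h0 (pairBits v (List.replicate (min i v.length) true))
    rw [unpair_pairBits] at h3
    simp only [List.length_replicate, min_eq_left (show i ≤ v.length by omega)] at h3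
    rw [List.map_append, List.getD_append _ _ _ _ (by simpa using hi), List.map_map,
      List.getD_eq_getElem _ _ (by simpa using hi)]
    simp only [List.getElem_map, List.getElem_range, Function.comp,
      min_eq_left (show i ≤ v.length by omega)]
    show O (f0 (pairBits v (List.replicate i true))) = _
    rw [Bool.eq_iff_iff, decide_eq_true_eq]
    exact h3
  have e1 : ∀ i, i < v.length + 1 → (List.map O ((List.range (v.length + 1)).map
      (fun i => f0 (pairBits v (List.replicate (min i v.length) true))) ++
      (List.range (v.length + 1)).map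
      (fun i => f1 (pairBits v (List.replicate (min i v.length) true))))).getD
        (v.length + 1 + i) false = (nx M Q q v).getD i false := by
    intro i hi
    have h3 := h1 (pairBits v (List.replicate (min i v.length) true))
    rw [unpair_pairBits] at h3
    simp only [List.length_replicate, min_eq_left (show i ≤ v.length by omega)] at h3
    rw [List.map_append, List.getD_append_right _ _ _ _ (by simp)]
    simp only [List.length_map, List.length_range, Nat.add_sub_cancel_left]
    rw [List.map_map, List.getD_eq_getElem _ _ (by simpa using hi)]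
    simp only [List.getElem_map, List.getElem_range, Function.comp,
      min_eq_left (show i ≤ v.length by omega)]
    show O (f1 (pairBits v (List.replicate i true))) = _
    rw [Bool.eq_iff_iff]
    exact h3
  have e2 : nx M Q q v = (nx M Q q v).take (v.length + 1) :=
    (List.take_of_length_le ((length_nx M Q q v).trans (Nat.le_succ _))).symm
  rw [e2, ← flatMap_take]
  refine List.flatMap_congr fun i hi => ?_
  rw [List.mem_range] at hi
  rw [e0 i hi, e1 i hi]

theorem isFP_stp (hA : IsFP O (fun y => [A y])) (hnx : IsFP O (nx M Q q)) :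
    IsFP O (stp M Q A q) := by
  have h1 := hA
  have h2 := IsFP.seq (φ := fun p => p.2) (ψ := fun p => p.1 ++ p.2.2) hnx h1 (Poly.snd Poly.id)
    (Poly.append (Poly.fst Poly.id) (Poly.snd (Poly.snd Poly.id)))
  exact h2

/-- **The decision**, by the oracle algorithm. -/
theorem isFP_dec (hA : IsFP O (fun y => [A y])) (hf2 : Poly f2) (hnx : IsFP O (nx M Q q))
    (h2 : ∀ y, O (f2 y) = true ↔ SS M Q q (unpair (unpair y).1).1 (unpair (unpair y).1).2 = none) :
    ∃ V : List Bool → List Bool, IsFP O V ∧ ∀ s, V s = [true] ↔
      SS M Q q s (AA M Q q s A ((2 * s.length + 1) ^ 3)) = none := by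
  have h3 : IsFP O (fun v => (stp M Q A q)^[TT.eval v.length] v) :=
    IsFP.loop (isFP_stp hA hnx) (g := fun v => v) Poly.id TT (Polynomial.X + TT) (by
      intro x i hi
      rw [length_iter, Polynomial.eval_add, Polynomial.eval_X]
      omega)
  have h4 : IsFP O (fun y => [O (f2 (pairBits y []))]) :=
    isFP_ask' _ (hf2.comp (poly_pairBits Poly.id (NPC.Poly.const [])))
  have h5 : Poly (fun s : List Bool => pairBits s []) := poly_pairBits Poly.id (NPC.Poly.const [])
  have h6 := IsFP.comp h4 (h3.precomp h5)
  refine ⟨_, h6, fun s => ?_⟩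
  have h7 : TT.eval (pairBits s []).length = (2 * s.length + 1) ^ 3 := by
    unfold TT
    rw [Polynomial.eval_pow, Polynomial.eval_X, length_pairBits, List.length_nil, add_zero]
  rw [h7, iter_eq]
  simp only [List.cons.injEq, and_true]
  have h8 := h2 (pairBits (pairBits s (AA M Q q s A ((2 * s.length + 1) ^ 3))) [])
  rw [unpair_pairBits] at h8
  simp only [unpair_pairBits] at h8
  exact h8

end

/-- **`W[1]` is easy** relative to oracles with the properties of random oracles. -/
theorem w1_up {q : ℕ → unitInterval} {Q A O : Oracle} (hOA : IsFP O (fun y => [A y]))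
    (hOQ : IsFP O (fun y => [join Q A y])) (hO : ∀ M : Alg, Knows O M Q q)
    (hA : ∀ M : Alg, {p : List Bool × List Bool | A ∈ Ev M Q q p}.Finite)
    (hG : ∀ H, 1 ≤ H → ∃ N₁, A ∈ GG q H N₁) {P : Set (List Bool × ℕ)} {π : ℕ → List Bool}
    {h : ℕ → ℕ} {R : List Bool → List Bool} {M : Alg} (hR : IsFP (join Q A) R)
    (hP : ∀ x k, (x, k) ∈ P ↔ ∃ w : List Bool, w.length ≤ h k * (Nat.log 2 x.length + 1) ∧
      Tail M (join Q A) (h k * (Nat.log 2 x.length + 1)) (h k)
        (pairBits w (R (pairBits (π k) x)))) : ParaAny (IsP O) P := by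
  classical
  have h2 : ∀ H : ℕ, ∃ N₁, 1 ≤ H → A ∈ GG q H N₁ := by
    intro H
    by_cases hH : 1 ≤ H
    · obtain ⟨N₁, h3⟩ := hG H hH
      exact ⟨N₁, fun _ => h3⟩
    · exact ⟨0, fun hH' => absurd hH' hH⟩
  choose ν hν using h2
  obtain ⟨f0, f1, f2, hf0, hf1, hf2, hf⟩ := hO M
  have hR' : IsFP O R := DT.isFP_subst hOQ hR
  have hnx := isFP_nx (M := M) (Q := Q) (O := O) (q := q) hf0 hf1 (fun y => (hf y).1)
    (fun y => (hf y).2.1)
  obtain ⟨V, hV, hVs⟩ := isFP_dec (M := M) (Q := Q) (A := A) (O := O) (q := q) hOA hf2 hnx
    (fun y => (hf y).2.2)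
  set HH : ℕ → ℕ := fun k => (h k + 1) * (h k + 1) * (h k + 2) with hHH
  set pad : ℕ → ℕ := fun k =>
    2 ^ (2 + (h k + 2) * (2 * h k + 3)) + 2 ^ ν (HH k) with hpad
  set π' : ℕ → List Bool := fun k => pairBits (List.replicate (h k) true)
    (pairBits (List.replicate (ν (HH k)) true)
      (pairBits (List.replicate (pad k) true) (π k))) with hπ'
  set F := FF R with hF
  -- the exceptions
  set Cd : Set (List Bool) := {y | A ∈ GG q (pH (F y)) (pN (F y)) ∧
    (2 * (F y).length + 1 + 2 ^ pN (F y)) * ((ph (F y) + 1) * kap (F y) + 2) ^ (ph (F y) + 2) ≤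
      2 * (F y).length + 1 + (2 * (F y).length + 1) ^ 3} with hCd
  set D : Set (List Bool) := {y | y ∈ Cd ∧ ¬ (V (F y) = [true] ↔
    AcT M Q (ph (F y)) (pn (F y)) (pz (F y)) A)} with hD
  have hDfin : D.Finite := by
    refine ((hA M).image (fun p => rec5 p.1)).subset ?_
    rintro y ⟨h1, h2⟩
    by_contra hcon
    apply h2
    rw [hVs]
    refine correct (fun a ha => hcon ⟨(F y, a), ha, rec5_FF R y⟩) h1.1 h1.2
  have hE : Poly (fun y => decide (y ∈ D)) := DT.poly_finite (by simpa using hDfin)
  have hVF : IsFP O (fun y => V (F y)) := IsFP.comp hV (isFP_FF hR')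
  have hV' := IsFP.seq (φ := fun p => p.1)
    (ψ := fun p => [(decide (p.2.1 = [true]) ^^ decide (p.1 ∈ D))]) hVF
    (IsFP.of_poly (A := O) (F := fun y => y) Poly.id) (Poly.fst Poly.id)
    (Poly.cons (Poly.xor (Poly.decide_eq (Poly.fst (Poly.snd Poly.id)) (NPC.Poly.const _))
      (hE.comp (Poly.fst Poly.id))) (NPC.Poly.const []))
  refine ⟨π', {y | (decide (V (F y) = [true]) ^^ decide (y ∈ D)) = true},
    ⟨_, hV', fun y => ?_⟩, fun x k => ?_⟩
  · simp only [Set.mem_ofPred_eq, List.cons.injEq, and_true]
  · rw [hP x k, Set.mem_ofPred_eq]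
    set y := pairBits (π' k) x with hy
    have e1 : a1 y = List.replicate (h k) true := by
      rw [hy, a1, unpair_pairBits, hπ', unpair_pairBits]
    have e2 : a2 y = List.replicate (ν (HH k)) true := by
      rw [hy, a2, unpair_pairBits, hπ']
      simp only [unpair_pairBits]
    have e4 : a4 y = π k := by
      rw [hy, a4, unpair_pairBits, hπ']
      simp only [unpair_pairBits]
    have e5 : a5 y = x := by rw [hy, a5, unpair_pairBits]
    have p1 : ph (F y) = h k := by
      rw [hF, ph, FF, unpair_pairBits, e1, List.length_replicate]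
    have p2 : pn (F y) = h k * (Nat.log 2 x.length + 1) := by
      rw [hF, pn, FF, e1, e5]
      simp only [unpair_pairBits, List.length_replicate]
    have p3 : pN (F y) = ν (HH k) := by
      rw [hF, pN, FF, e2]
      simp only [unpair_pairBits, List.length_replicate]
    have p4 : pz (F y) = R (pairBits (π k) x) := by
      rw [hF, pz, FF, e4, e5]
      simp only [unpair_pairBits]
    have p5 : pH (F y) = HH k := by
      unfold pH
      rw [p1]
    have hlen1 : y.length ≤ (F y).length := le_FF R y
    have hlen2 : y.length = 2 * (π' k).length + 1 + x.length := by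
      rw [hy, length_pairBits]
    have hlen3 : pad k ≤ (π' k).length := by
      rw [hπ']
      simp only [length_pairBits, List.length_replicate]
      omega
    have hcd : y ∈ Cd := by
      refine ⟨?_, ?_⟩
      · rw [p5, p3]
        refine hν _ ?_
        rw [← p5]
        exact pH_pos _
      · have hpow1 : 1 ≤ 2 ^ ν (HH k) := Nat.one_le_two_pow
        have hpow2 : 1 ≤ 2 ^ (2 + (h k + 2) * (2 * h k + 3)) := Nat.one_le_two_pow
        have hpadk : pad k = 2 ^ (2 + (h k + 2) * (2 * h k + 3)) + 2 ^ ν (HH k) := rfl
        have h9 : 2 ^ Nat.log 2 x.length ≤ x.length + 1 := Nat.pow_log_le_add_one 2 x.length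
        have key := time_ok (m := h k + 1) (n := pn (F y)) (lg := Nat.log 2 x.length)
          (ℓ := 2 * (F y).length + 1) (N := pN (F y)) (by
            rw [p2]
            exact Nat.mul_le_mul_right _ (Nat.le_succ _)) (by omega) (by
            have h10 : 2 + (h k + 1 + 1) * (2 * (h k + 1) + 1) =
                2 + (h k + 2) * (2 * h k + 3) := by ring
            rw [h10]
            omega) (by
            rw [p3]
            omega) (by omega)
        have hkap : kap (F y) = 2 * 2 ^ ((pn (F y) /
            ((h k + 1) * (h k + 1) * (h k + 1 + 1)) + 1) * (h k + 1)) := by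
          unfold kap
          rw [p5, p1]
        rw [p1, hkap]
        exact key
    have hAc : AcT M Q (ph (F y)) (pn (F y)) (pz (F y)) A ↔ ∃ w : List Bool,
        w.length ≤ h k * (Nat.log 2 x.length + 1) ∧
        Tail M (join Q A) (h k * (Nat.log 2 x.length + 1)) (h k)
          (pairBits w (R (pairBits (π k) x))) := by
      rw [p1, p2, p4]
      rfl
    rw [← hAc]
    by_cases hyD : y ∈ D
    · have h1 := hyD.2
      rw [decide_eq_true hyD, Bool.xor_true, Bool.not_eq_true', decide_eq_false_iff_not]
      exact aux_iff h1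
    · have h1 : V (F y) = [true] ↔ AcT M Q (ph (F y)) (pn (F y)) (pz (F y)) A := by
        by_contra h2
        exact hyD ⟨hcd, h2⟩
      rw [decide_eq_false hyD, Bool.xor_false, decide_eq_true_eq]
      exact h1.symm

end Pool.Agent.TH683.W1D.Gen
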