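import Pool.Agent.TH683.W1D.Gen

/-! # The first step of the W-hierarchy relative to random oracles -/

set_option autoImplicit false

namespace Pool.Agent.TH683.W1D

open Pool.Agent.NPC Pool.Agent.H620R2.Gauge MeasureTheory Pool.Agent.TH680 Pool.Agent.H622R2
open Pool.Agent.W900.IE (indep)
open Pool.Agent.TH680.OD (rr rr_nonneg rr_le join)
open Pool.Agent.TH678.WP Pool.Agent.TH678.HW Pool.Agent.TH678.ETH

/-- the algorithm which ignores the string `v` -/
noncomputable def skp (M : Alg) : Alg :=
  ⟨fun z => M.D (pairBits (unpair (unpair z).1).2 (unpair z).2), by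
    refine polyTime_of_poly_list ((poly_of_polyTime M.poly).comp (poly_pairBits ?_ ?_))
    · exact Poly.snd (poly_unpair.comp (Poly.fst poly_unpair))
    · exact Poly.snd poly_unpair, 1⟩

theorem run_skp (M : Alg) (B : Oracle) (v u : List Bool) : ∀ (r : ℕ) (a : List Bool),
    (skp M).run B (pairBits v u) r a = M.run B u r a := by
  intro r
  induction r with
  | zero => exact fun a => rfl
  | succ r ih =>
    intro a
    have hD : (skp M).D (pairBits (pairBits v u) a) = M.D (pairBits u a) := by
      unfold skp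
      simp only [unpair_pairBits]
    rw [Alg.run, Alg.run, hD]
    rcases M.D (pairBits u a) with _ | ⟨b, q⟩
    · rfl
    · cases b with
      | true => rfl
      | false => exact ih _

theorem w1_w2 {A : Oracle} {P : Set (List Bool × ℕ)} (h : InW1 A P) : InW2 A P := by
  obtain ⟨π, h, R, M, hπ, hh, hR, hP⟩ := h
  refine ⟨π, h, R, skp M, hπ, hh, hR, fun x k => ?_⟩
  rw [hP]
  refine exists_congr fun w => and_congr_right fun _ => ?_
  unfold Tail
  simp only [run_skp]
  exact ⟨fun h1 _ _ => h1, fun h1 => h1 [] (Nat.zero_le _)⟩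

open Classical in
/-- **`W[1]` is strictly contained in `W[2]`.** -/
theorem strict {q : ℕ → unitInterval}
    (h1 : ∀ δ : ℝ, 0 < δ →
      Summable (fun N : ℕ => if rr q N ≤ 2 ^ (-(δ * N)) then 2 ^ N * rr q N else 0))
    (h2 : ¬ Summable (fun n => 2 ^ n * rr q n)) (Q : Oracle) :
    ∀ᵐ A ∂(indep (DT.pq q)), ∃ P, InW2 (join Q A) P ∧ ¬ ParaAny (IsNP (join Q A)) Pᶜ ∧
      ∀ (π : ℕ → List Bool) (h : ℕ → ℕ) (R : List Bool → List Bool) (M : Alg),
        IsFP (join Q A) R → ¬ ∀ x k, (x, k) ∈ P ↔
          ∃ w : List Bool, w.length ≤ h k * (Nat.log 2 x.length + 1) ∧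
            Tail M (join Q A) (h k * (Nat.log 2 x.length + 1)) (h k)
              (pairBits w (R (pairBits (π k) x))) := by
  obtain ⟨Q', hQ', hK⟩ := Gen.exists_Q' q Q
  have hGG : ∀ᵐ A ∂(indep (DT.pq q)), ∀ H : ℕ, 1 ≤ H → ∃ N₁, A ∈ GG q H N₁ := by
    rw [ae_all_iff]
    intro H
    by_cases hH : 1 ≤ H
    · have hH' : (0 : ℝ) < 1 / (H : ℝ) := by
        have : (0 : ℝ) < H := by exact_mod_cast hH
        positivity
      have hs : Summable (fun N => if Ina q H N then 2 ^ N * rr q N else 0) := by
        refine Summable.of_nonneg_of_le (fun N => ?_) (fun N => ?_) (h1 _ hH')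
        · split_ifs
          · exact mul_nonneg (by positivity) (rr_nonneg q N)
          · exact le_rfl
        · by_cases h1 : Ina q H N
          · rw [if_pos h1, if_pos (le_of_ina hH h1)]
          · rw [if_neg h1]
            split_ifs
            · exact mul_nonneg (by positivity) (rr_nonneg q N)
            · exact le_rfl
      filter_upwards [ae_GG (fun N => Ina q H N) (fun N => Iff.rfl) hs] with A hA _
      exact hA
    · exact Filter.Eventually.of_forall fun A hH' => absurd hH' hH
  obtain ⟨b, hb⟩ := WPD.ae_srch h2 Q'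
  filter_upwards [hb, hGG, ae_good q Q] with A hA hG hE
  have hOQ : IsFP (join Q' A) (fun y => [join Q A y]) := by
    have h3 : IsFP (join Q' A) (fun y => [join Q' A
        (if y.head? = some false then false :: y else y)]) :=
      isFP_ask' _ (Poly.ite (Poly.decide_eq (Poly.head? Poly.id) (NPC.Poly.const _))
        (Poly.cons (NPC.Poly.const false) Poly.id) Poly.id)
    refine (congrArg (IsFP (join Q' A)) (funext fun y => ?_)).mp h3
    rcases y with _ | ⟨c, z⟩
    · rfl
    · cases c with
      | false => exact congrArg (fun b => [b]) (hQ' z)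
      | true => rfl
  have hOA : IsFP (join Q' A) (fun y => [A y]) :=
    isFP_ask' (join Q' A) (q := fun y => true :: y) (Poly.cons (NPC.Poly.const true) Poly.id)
  refine ⟨WPD.srch b (join Q A), WPD.inW2_srch b _, ?_, fun π h R M hR hP => ?_⟩
  · rintro ⟨π, L, ⟨V, p, hV, hL⟩, h3⟩
    exact hA ⟨π, L, ⟨V, p, DT.isFP_subst hOQ hV, hL⟩, h3⟩
  · obtain ⟨π', L, hL, h3⟩ := Gen.w1_up hOA hOQ (fun M => hK M A) hE hG hR hP
    refine hA ⟨π', Lᶜ, hL.compl.isNP, fun x k => ?_⟩
    rw [Set.mem_compl_iff, Set.mem_compl_iff, ← h3]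
    rfl

end Pool.Agent.TH683.W1D
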